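import Pool.Agent.H80.PK.KStmts

/-!
# Row MKT of the board `pkt`: assembly over matrix algebras
-/

set_option autoImplicit false

namespace Pool.PK

open Filter Topology

attribute [local instance] Matrix.linftyOpNormedRing Matrix.linftyOpNormedAlgebra

theorem mkt_dense {X Y : Type} [TopologicalSpace Y] (f : X → Y) (hf : DenseRange f) (n : ℕ) :
    DenseRange (fun M : Matrix (Fin n) (Fin n) X => M.map f) := by
  have h1 : DenseRange (Pi.map fun _ : Fin n => (Pi.map fun _ : Fin n => f)) :=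
    DenseRange.piMap fun _ => DenseRange.piMap fun _ => hf
  exact h1

theorem mkt_rs {A B U : Type} [NormedRing A] [NormedAlgebra ℂ A]
    [NormedRing B] [NormedAlgebra ℂ B] [Ring U] [Algebra ℂ U]
    (ι : U →ₐ[ℂ] A) (φ : A →ₐ[ℂ] B) (hφ : Continuous (φ : A →+* B)) (h1 : DenseRange ι)
    (h2 : DenseRange (fun x => φ (ι x)))
    (h3 : ∀ (n : ℕ) (X : Mat U n),
      Tendsto (fun k : ℕ => ((X.map (fun u => φ (ι u)) : Mat B n)) ^ k) atTop (𝓝 0) →
      Tendsto (fun k : ℕ => ((X.map (fun u => ι u) : Mat A n)) ^ k) atTop (𝓝 0)) (n : ℕ) :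
    RS (A := Mat A n) (B := Mat B n) (U := Mat U n) (ι.mapMatrix) (φ.mapMatrix) := by
  refine ⟨?_, ?_, ?_, ?_⟩
  · exact continuous_mapMatrix (φ : A →+* B) hφ n
  · exact mkt_dense ι h1 n
  · exact mkt_dense (fun x => φ (ι x)) h2 n
  · exact h3 n

theorem mkt_complete {A : Type} [NormedRing A] [CompleteSpace A] (n : ℕ) :
    @CompleteSpace (Mat A n)
      (Matrix.linftyOpNormedRing (α := A) (n := Fin n)).toMetricSpace.toPseudoMetricSpace.toUniformSpace := by
  have h : CompleteSpace (Fin n → Fin n → A) := inferInstance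
  exact h

theorem MKT (h1 : K0SStmt) (h2 : K0IStmt) (h3 : K1SStmt) (h4 : K1IStmt) (h5 : KB0Stmt)
    (h6 : KB1Stmt) : MKTStmt := by
  intro A B U _ _ _ _ _ _ _ _ ι φ hφ d1 d2 hn
  have hRS := mkt_rs ι φ hφ d1 d2 hn
  haveI := fun n : ℕ => mkt_complete (A := A) n
  haveI := fun n : ℕ => mkt_complete (A := B) n
  constructor
  · refine h5 A B (φ : A →+* B) ?_ ?_
    · intro n f
      obtain ⟨e, he, hs⟩ := h1 (Mat A n) (Mat B n) (Mat U n) _ _ (hRS n) f.1 f.2
      exact ⟨⟨e, he⟩, hs⟩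
    · intro n e f hs
      exact h2 (Mat A n) (Mat B n) (Mat U n) _ _ (hRS n) e.1 f.1 e.2 f.2 hs
  · refine h6 A B (φ : A →+* B) hφ ?_ ?_
    · intro n v
      obtain ⟨a, ha, hs⟩ := h3 (Mat A n) (Mat B n) (Mat U n) _ _ (hRS n) (v : Mat B n) v.isUnit
      obtain ⟨u, rfl⟩ := ha
      exact ⟨u, hs⟩
    · intro n u v hs
      exact h4 (Mat A n) (Mat B n) (Mat U n) _ _ (hRS n) (u : Mat A n) (v : Mat A n) u.isUnit
        v.isUnit hs

end Pool.PK
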